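import Pool.Agent.X120.Cheb.Main
import Pool.Agent.X120.Soft.Val

/-!
# Values of Chebyshev's functions and of other sums of logarithms

Let `a (0) < a (1) < a (2) < ⋯` be a sequence of positive integers which grows slowly: `a (n) ≤ n ^ (1 + η)`
for every `η > 0` and all sufficiently large `n`. Let `c (n)` be arbitrary nonzero rational numbers, and let

`F (n) = c (0) log a (0) + c (1) log a (1) + ⋯ + c (n) log a (n)`.

Let `(a_0, c_0), ..., (a_k, c_k)` be such pairs of sequences, equal or not, and let `r ≥ 0`. For almost all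
tuples `(n_0, ..., n_k)` of positive integers the `(k + 1) (r + 2)` numbers

`F_i (n_i), log a_i (n_i), log a_i (n_i + 1), ..., log a_i (n_i + r)`, `0 ≤ i ≤ k`,

satisfy no nontrivial relation of degree at most `δ` with coefficients in `L · V`, for all number fields `L`
of degree at most `d`. Here `V` is an arbitrary space of complex numbers of dimension at most `D` over `ℚ`,
and the bound for the number of exceptions does not depend on `V`.

Examples:
* `a (n)` the sequence of the primes, `c = 1`: the values `θ (p) = ∑_{q ≤ p} log q` of Chebyshev's function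
  at the primes, together with `log p` and the logarithms of the next primes;
* `a (n)` the sequence of the prime powers `p ^ m`, `c = 1 / m`: the values `ψ (N) = log lcm (1, ..., N)` of
  Chebyshev's second function at the prime powers `N`, together with `log N`;
* `a (n) = n + 1`: `log n !` together with `log n`, hence for instance
  `log n ! - (n + 1 / 2) log n + n - log (2 π) / 2` (take a space `V` which contains `1` and powers of
  `log (2 π)`); sums over the squarefree integers, over the sums of two squares, and so on.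

The proof: consider the indices `n + s g`, `1 ≤ g ≤ L`, `s = r + 2`. The numbers `F (n + s g)` and
`log a (n + s g + j)` are, up to the unknown constants `F (n)` and `log a (n)`, linear combinations with
linearly independent vectors of coefficients of the numbers `log (1 + β / ξ)` with `ξ = a (n)` and
`β = a (n + i) - a (n)`, `i ≤ s (L + 1)`, and for all `n` outside of a set of density `0` the integers `β` are
smaller than a given small power of `ξ`. Hence for these `n` at most a bounded number of the indices
`n + s g` is exceptional (`Pool.Agent.Y916.Om.win2` and `Pool.Agent.Y916.Al.windowH`, starting library).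
-/

set_option autoImplicit false

open Filter

namespace Pool.Agent.Results.MP_60829e_nt.ChebyshevFunctions

/-- The numbers `l` satisfy a nontrivial relation of degree at most `δ` whose coefficients are linear
combinations of elements of `V` with coefficients in a number field of degree at most `d`. -/
def Related (δ d : ℕ) (V : Submodule ℚ ℂ) {ι : Type} (l : ι → ℂ) : Prop :=
  ∃ L : IntermediateField ℚ ℂ, FiniteDimensional ℚ L ∧ Module.finrank ℚ L ≤ d ∧
    ∃ P : MvPolynomial ι ℂ, P ≠ 0 ∧ P.totalDegree ≤ δ ∧ (∀ s, P.coeff s ∈ Submodule.span L (V : Set ℂ)) ∧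
      MvPolynomial.aeval l P = 0

/-- The sum `c (0) log a (0) + ⋯ + c (n) log a (n)` (index `none`) and the logarithms of
`a (n), ..., a (n + r)`. -/
noncomputable def values (a : ℕ → ℕ) (c : ℕ → ℚ) (r n : ℕ) : Option (Fin (r + 1)) → ℝ
  | none => ∑ i ∈ Finset.range (n + 1), c i * Real.log (a i)
  | some j => Real.log (a (n + j))

theorem result {k : ℕ} (a : Fin (k + 1) → ℕ → ℕ) (ha : ∀ i, StrictMono (a i)) (ha0 : ∀ i, 0 < a i 0)
    (hgr : ∀ i, ∀ m : ℕ, ∀ᶠ n in atTop, a i n ^ m ≤ n ^ (m + 1)) (c : Fin (k + 1) → ℕ → ℚ)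
    (hc : ∀ i n, c i n ≠ 0) (r δ d D : ℕ) (ε : ℝ) (hε : 0 < ε) :
    ∃ T₀ : ℕ, ∀ V : Submodule ℚ ℂ, Module.Finite ℚ V → Module.finrank ℚ V ≤ D → ∀ T ≥ T₀,
      ({n : Fin (k + 1) → ℕ | (∀ i, 1 ≤ n i ∧ n i ≤ T) ∧ Related δ d V
        (fun p : Fin (k + 1) × Option (Fin (r + 1)) => (values (a p.1) (c p.1) r (n p.1) p.2 : ℂ))}.ncard : ℝ) ≤
          ε * (T : ℝ) ^ (k + 1) := by
  obtain ⟨T₀, hT₀⟩ := X120.Soft.final_val (fun i n => X120.Cheb.xs (a i) (c i) r n)
    (fun i => X120.Cheb.rareC (a i) (ha i) (ha0 i) (hgr i) (c i) (hc i) r) δ d D ε hε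
  refine ⟨T₀, fun V hV hVD T hT => ?_⟩
  obtain ⟨S, hS, hm⟩ := hT₀ V hV hVD T hT
  refine le_trans ?_ hS
  rw [← Set.ncard_coe_finset]
  refine Nat.cast_le.2 (Set.ncard_le_ncard ?_ S.finite_toSet)
  rintro n ⟨hn, hrel⟩
  refine hm n hn ?_
  have h : (fun p : Fin (k + 1) × Option (Fin (r + 1)) => X120.Cheb.xs (a p.1) (c p.1) r (n p.1) p.2) =
      fun p => ((values (a p.1) (c p.1) r (n p.1) p.2 : ℝ) : ℂ) := by
    funext ⟨i, t⟩
    rcases t with _ | j
    · rfl
    · rfl
  rw [h]
  exact hrel

end Pool.Agent.Results.MP_60829e_nt.ChebyshevFunctions
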