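import Pool.Agent.X120.Rec.Full

/-!
# Logarithms of the terms of exponential sequences

Let `u_{i,s} (n) = κ_{i,s} ^ n f_{i,s} (ρ_i ^ n)`, `0 ≤ i ≤ k`, `s < r`, where the `ρ_i` are nonzero
algebraic numbers with `|ρ_i| ≠ 1`, the `κ_{i,s}` are arbitrary nonzero complex numbers, and
`f_{i,s}` are polynomials with algebraic coefficients, `f_{i,s} (0) ≠ 0`, such that for each `i` the
polynomials `f_{i,s}`, `s < r`, are multiplicatively independent modulo constants. For all but
`C T ^ k log T` of the `T ^ (k + 1)` tuples `(n_0, ..., n_k)` of positive integers up to `T`, arbitrary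
values of the `(k + 1) r` logarithms `log u_{i,s} (n_i)` satisfy no nontrivial relation of degree at
most `δ` with coefficients in `L · V`, for all number fields `L` of degree at most `d`. Here `V` is an
arbitrary space of complex numbers of dimension at most `D` over `ℚ`, and the constant `C` does not
depend on `V`.

Examples: the terms of binary linear recurrences with a dominant root, such as the Mersenne numbers
`2 ^ n - 1` and the Fibonacci numbers `F_n`; blocks of consecutive terms, such as
`F_n, F_{n+1}, ..., F_{n+r-1}`; and combinations such as `2 ^ n - 1, 2 ^ n + 1, 2 ^ n + 3`. In the case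
`k = 0` there are at most `C log T` exceptional `n ≤ T`. If the polynomials `f_{i,s}` and the numbers
`ρ_i`, `κ_{i,s}` do not depend on `i`, then the tuples with `n_0 = n_1` are exceptional, and so one cannot
replace `T ^ k` by a smaller power of `T`.

The proof: `log (1 - γ ρ ^ (i + j))` for large `i` and `j ≤ c i` is a value of the logarithm at a point
`1 + β / ξ` close to `1` where `ξ = ρ ^ (- i)` is large compared to the height of `β = - γ ρ ^ j`, and so the
windows `[i, (1 + c) i]` contain a bounded number of exceptional indices even over unknown constants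
(`Pool.Agent.Y916.Al.windowH`, starting library). Logarithmically many of these windows cover the
integers up to `T`. Tuples are treated by induction. The factorisation of `f_{i,s}` reduces the theorem
to this case.
-/

set_option autoImplicit false

open Polynomial

namespace Pool.Agent.Results.MP_60829e_nt.ExponentialSequences

/-- The polynomials `f_s` are multiplicatively independent modulo constants: the products of powers of
the `f_s` with different exponents are not proportional. -/
def MulIndep {r : ℕ} (f : Fin r → ℂ[X]) : Prop :=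
  ∀ (a b : Fin r → ℕ) (c : ℂ), ∏ s, f s ^ a s = C c * ∏ s, f s ^ b s → a = b

/-- The numbers `l` satisfy a nontrivial relation of degree at most `δ` whose coefficients are linear
combinations of elements of `V` with coefficients in a number field of degree at most `d`. -/
def Related (δ d : ℕ) (V : Submodule ℚ ℂ) {ι : Type} (l : ι → ℂ) : Prop :=
  ∃ L : IntermediateField ℚ ℂ, FiniteDimensional ℚ L ∧ Module.finrank ℚ L ≤ d ∧
    ∃ P : MvPolynomial ι ℂ, P ≠ 0 ∧ P.totalDegree ≤ δ ∧ (∀ s, P.coeff s ∈ Submodule.span L (V : Set ℂ)) ∧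
      MvPolynomial.aeval l P = 0

theorem result {k r : ℕ} (f : Fin (k + 1) → Fin r → ℂ[X])
    (hf : ∀ i s m, IsAlgebraic ℚ ((f i s).coeff m)) (hf0 : ∀ i s, (f i s).eval 0 ≠ 0)
    (hind : ∀ i, MulIndep (f i)) (ρ : Fin (k + 1) → ℂ) (hρ : ∀ i, IsAlgebraic ℚ (ρ i))
    (hρ0 : ∀ i, ρ i ≠ 0) (hρ1 : ∀ i, ‖ρ i‖ ≠ 1) (κ : Fin (k + 1) → Fin r → ℂ) (hκ : ∀ i s, κ i s ≠ 0)
    (δ d D : ℕ) :
    ∃ C : ℝ, ∀ V : Submodule ℚ ℂ, Module.Finite ℚ V → Module.finrank ℚ V ≤ D → ∀ T : ℕ, 2 ≤ T →
      ({n : Fin (k + 1) → ℕ | (∀ i, 1 ≤ n i ∧ n i ≤ T) ∧ ∃ l : Fin (k + 1) × Fin r → ℂ,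
        (∀ p, Complex.exp (l p) = κ p.1 p.2 ^ n p.1 * (f p.1 p.2).eval (ρ p.1 ^ n p.1)) ∧
          Related δ d V l}.ncard : ℝ) ≤ C * (T : ℝ) ^ k * Real.log T := by
  obtain ⟨C, hC⟩ := X120.Rec.full f hf hf0 hind ρ hρ hρ0 hρ1 κ hκ δ d D
  refine ⟨C, fun V hV hVD T hT => ?_⟩
  obtain ⟨S, hS, hm⟩ := hC V hV hVD T hT
  refine le_trans ?_ hS
  rw [← Set.ncard_coe_finset]
  refine Nat.cast_le.2 (Set.ncard_le_ncard ?_ S.finite_toSet)
  rintro n ⟨hn, l, hl, hrel⟩
  exact hm n hn l hl hrel

end Pool.Agent.Results.MP_60829e_nt.ExponentialSequences
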