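import Pool.Agent.X120.Fac.Fin

/-!
# Logarithms of factorials and of other sequences with a multiplicative recurrence

A sequence `u (n)` of complex numbers has a multiplicative recurrence if for some `m` and some algebraic
numbers `z_0, ..., z_q` such that no `z_t`, `t ≠ 0`, is of the form `z_0 + i`, `i = 0, 1, 2, ...`, all
sufficiently large `n` satisfy a relation

`u (n) ^ {c_0} u (n+1) ^ {c_1} ⋯ u (n+m) ^ {c_m} = g (n + z_0) ^ {e_0} ⋯ (n + z_q) ^ {e_q}`

where `g` is in a fixed finitely generated group of nonzero complex numbers and where the exponents are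
integers which may depend on `n` in an arbitrary way, except that `c_m ≠ 0` and `e_0 ≠ 0`. Examples are
`n`, `n !`, `(2 n) ! / (n !) ^ 2`, `n ^ n`, the superfactorials `1 ! 2 ! ⋯ n !`, the hyperfactorials
`1 ^ 1 2 ^ 2 ⋯ n ^ n`, the products `R (1) R (2) ⋯ R (n)` for all nonconstant rational functions `R` with
algebraic coefficients (without zeros and poles at the positive integers), and the products of such products.

Let `u_0, ..., u_k` be such sequences, equal or not. For almost all tuples `(n_0, ..., n_k)` of positive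
integers arbitrary values of the logarithms of `u_0 (n_0), ..., u_k (n_k)`, for example
`log (n_0 !), ..., log (n_k !)`, satisfy no nontrivial relation of degree at most `δ` with coefficients in
`L · V`, for all number fields `L` of degree at most `d`. Here `V` is an arbitrary space of complex numbers
of dimension at most `D` over `ℚ`, and the bound for the number of exceptions does not depend on `V`.

The proof: in a window `n + 1, ..., n + L` of fixed length the numbers `log u (n + g)` are, up to the
unknown constants `log u (n - m + 1), ..., log u (n)` and `log (n - m + z_0)`, linear combinations with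
linearly independent vectors of coefficients of numbers `log (1 + β / ξ)`, where `ξ = n - m + z_0` is large
and where the algebraic numbers `β` are from a finite set. Hence the window contains a bounded number of
exceptional indices if `n` is large (`Pool.Agent.Y916.Om.win2` and `Pool.Agent.Y916.Al.windowH`, starting
library). Since `L` is arbitrary, the exceptional indices have density `0`. Tuples are treated by induction.
-/

set_option autoImplicit false

namespace Pool.Agent.Results.MP_60829e_nt.FactorialsAndProducts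

/-- The sequence `u` has a multiplicative recurrence: there are `m`, nonzero complex numbers `γ_j` and
algebraic numbers `z_t` such that no `z_t`, `t ≠ 0`, is of the form `z_0 + i` with a natural number `i`, and
such that for every sufficiently large `n` the number `u n` is not zero and
`∏_{i ≤ m} u (n + i) ^ c_i = ∏_j γ_j ^ a_j ∏_t (n + z_t) ^ e_t` for some integers `c_i`, `a_j`, `e_t`
(which may depend on `n`) with `c_m ≠ 0` and `e_0 ≠ 0`. -/
def MulRec (u : ℕ → ℂ) : Prop :=
  ∃ (m p q : ℕ) (γ : Fin p → ℂ) (z : Fin (q + 1) → ℂ) (n₀ : ℕ), (∀ j, γ j ≠ 0) ∧ (∀ t, IsAlgebraic ℚ (z t)) ∧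
    (∀ t, t ≠ 0 → ∀ i : ℕ, z t ≠ z 0 + i) ∧ ∀ n ≥ n₀, u n ≠ 0 ∧
      ∃ (c : Fin (m + 1) → ℤ) (a : Fin p → ℤ) (e : Fin (q + 1) → ℤ), c (Fin.last m) ≠ 0 ∧ e 0 ≠ 0 ∧
        ∏ i : Fin (m + 1), u (n + i) ^ c i = (∏ j, γ j ^ a j) * ∏ t, ((n : ℂ) + z t) ^ e t

/-- The numbers `l` satisfy a nontrivial relation of degree at most `δ` whose coefficients are linear
combinations of elements of `V` with coefficients in a number field of degree at most `d`. -/
def Related (δ d : ℕ) (V : Submodule ℚ ℂ) {ι : Type} (l : ι → ℂ) : Prop :=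
  ∃ L : IntermediateField ℚ ℂ, FiniteDimensional ℚ L ∧ Module.finrank ℚ L ≤ d ∧
    ∃ P : MvPolynomial ι ℂ, P ≠ 0 ∧ P.totalDegree ≤ δ ∧ (∀ s, P.coeff s ∈ Submodule.span L (V : Set ℂ)) ∧
      MvPolynomial.aeval l P = 0

theorem result {k : ℕ} (u : Fin (k + 1) → ℕ → ℂ) (hu : ∀ i, MulRec (u i)) (δ d D : ℕ) (ε : ℝ) (hε : 0 < ε) :
    ∃ T₀ : ℕ, ∀ V : Submodule ℚ ℂ, Module.Finite ℚ V → Module.finrank ℚ V ≤ D → ∀ T ≥ T₀,
      ({n : Fin (k + 1) → ℕ | (∀ i, 1 ≤ n i ∧ n i ≤ T) ∧ ∃ l : Fin (k + 1) → ℂ,
        (∀ i, Complex.exp (l i) = u i (n i)) ∧ Related δ d V l}.ncard : ℝ) ≤ ε * (T : ℝ) ^ (k + 1) := by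
  obtain ⟨T₀, hT₀⟩ := X120.Soft.final (σ := Unit) (fun i n _ => u i n) (fun i => by
    obtain ⟨m, p, q, γ, z, n₀, h1, h2, h3, h4⟩ := hu i
    exact X120.Fac.rareF (u i) γ h1 z h2 h3 n₀ (fun n hn => (h4 n hn).1) fun n hn => (h4 n hn).2) δ d D ε hε
  refine ⟨T₀, fun V hV hVD T hT => ?_⟩
  obtain ⟨S, hS, hm⟩ := hT₀ V hV hVD T hT
  refine le_trans ?_ hS
  rw [← Set.ncard_coe_finset]
  refine Nat.cast_le.2 (Set.ncard_le_ncard ?_ S.finite_toSet)
  rintro n ⟨hn, l, hl, L, h1, h2, P, h3, h4, h5, h6⟩
  refine hm n hn (fun p => l p.1) (fun p => hl p.1) ⟨L, h1, h2, MvPolynomial.rename (fun i => (i, ())) P, ?_, ?_, ?_, ?_⟩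
  · intro h0
    exact h3 (MvPolynomial.rename_injective _ (fun a b hab => (Prod.mk.inj hab).1) (h0.trans (map_zero _).symm))
  · exact (MvPolynomial.totalDegree_rename_le _ _).trans h4
  · intro s
    by_cases hs : ∃ s', Finsupp.mapDomain (fun i => (i, ())) s' = s
    · obtain ⟨s', rfl⟩ := hs
      rw [MvPolynomial.coeff_rename_mapDomain _ (fun a b hab => (Prod.mk.inj hab).1)]
      exact h5 s'
    · rw [MvPolynomial.coeff_rename_eq_zero _ _ _ fun s' hs' => absurd ⟨s', hs'⟩ hs]
      exact Submodule.zero_mem _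
  · rw [MvPolynomial.aeval_rename]
    exact h6

end Pool.Agent.Results.MP_60829e_nt.FactorialsAndProducts
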