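import Pool.Agent.X120.Orb.Fin

/-!
# Logarithms of the elements of polynomial orbits (Fermat numbers, Sylvester's sequence)

Let `P` be a polynomial of degree at least two with algebraic coefficients, `a (0)` an algebraic number,
`a (n + 1) = P (a (n))`, and let this sequence be unbounded. Let `f` be a nonconstant polynomial with
algebraic coefficients such that it is not the case that `f` has only one zero `z` and `z` is the only
preimage of `z` under `P` (this exceptional case means `P = z + c (X - z) ^ q` and `f = b (X - z) ^ m`).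
Examples for the sequences `f (a (n))` are

* the Fermat numbers `2 ^ (2 ^ n) + 1` (`P = X ^ 2`, `f = X + 1`), more generally `f (θ ^ (q ^ n))` for
  algebraic `θ`, `|θ| > 1`, and all `f` which are not of the form `b X ^ m`,
* Sylvester's sequence `2, 3, 7, 43, 1807, ...`, `a (n + 1) = a (n) ^ 2 - a (n) + 1`, and the sequence
  `4, 14, 194, ...`, `a (n + 1) = a (n) ^ 2 - 2`, of the Lucas-Lehmer test.

For `k + 1` such sequences, equal or not, and for almost all tuples `(n_0, ..., n_k)` of positive integers
arbitrary values of the logarithms of `f_0 (a_0 (n_0)), ..., f_k (a_k (n_k))` satisfy no nontrivial relation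
of degree at most `δ` with coefficients in `L · V`, for all number fields `L` of degree at most `d`. Here `V`
is an arbitrary space of complex numbers of dimension at most `D` over `ℚ`, and the bound for the number of
exceptions does not depend on `V`.

The proof: in a window `n + 1, ..., n + L` of fixed length the numbers `log f (a (n + g))` are, up to the
unknown constant `log (a (n) - c)` and three known ones, the combinations with the multiplicities as
coefficients of the numbers `log (1 + (c - z) / (a (n) - c))`, where `z` runs through the zeros of the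
iterates `f (P (⋯ (P (X)) ⋯))`; here `c` is a large integer. The vectors of coefficients are linearly
independent since every iterate has a new zero: otherwise the set of zeros of finitely many iterates
contains all its preimages under `P`, and a finite set with this property has only one element. Hence the
window contains a bounded number of exceptional indices if `n` is large (`Pool.Agent.Y916.Om.win2` and
`Pool.Agent.Y916.Al.windowH`, starting library). Since `L` is arbitrary, the exceptional indices have
density `0`. Tuples are treated by induction.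
-/

set_option autoImplicit false

open Polynomial

namespace Pool.Agent.Results.MP_60829e_nt.PolynomialOrbits

/-- The sequence `u` has the form `u (n) = f (a (n))`, where `f` and `P` are polynomials with algebraic
coefficients, `f` is not constant, the degree of `P` is at least `2`, `a (0)` is algebraic,
`a (n + 1) = P (a (n))`, the sequence `a` is unbounded, and there is no `z` such that `z` is the only zero of
`f` and the only preimage of `z` under `P`. -/
def OrbitSeq (u : ℕ → ℂ) : Prop :=
  ∃ (f P : ℂ[X]) (a : ℕ → ℂ), (∀ i, IsAlgebraic ℚ (f.coeff i)) ∧ (∀ i, IsAlgebraic ℚ (P.coeff i)) ∧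
    1 ≤ f.natDegree ∧ 2 ≤ P.natDegree ∧ (¬ ∃ z, (∀ x, f.eval x = 0 ↔ x = z) ∧ ∀ x, P.eval x = z ↔ x = z) ∧
    IsAlgebraic ℚ (a 0) ∧ (∀ n, a (n + 1) = P.eval (a n)) ∧ (∀ R : ℝ, ∃ n, R < ‖a n‖) ∧ ∀ n, u n = f.eval (a n)

/-- The numbers `l` satisfy a nontrivial relation of degree at most `δ` whose coefficients are linear
combinations of elements of `V` with coefficients in a number field of degree at most `d`. -/
def Related (δ d : ℕ) (V : Submodule ℚ ℂ) {ι : Type} (l : ι → ℂ) : Prop :=
  ∃ L : IntermediateField ℚ ℂ, FiniteDimensional ℚ L ∧ Module.finrank ℚ L ≤ d ∧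
    ∃ P : MvPolynomial ι ℂ, P ≠ 0 ∧ P.totalDegree ≤ δ ∧ (∀ s, P.coeff s ∈ Submodule.span L (V : Set ℂ)) ∧
      MvPolynomial.aeval l P = 0

theorem result {k : ℕ} (u : Fin (k + 1) → ℕ → ℂ) (hu : ∀ i, OrbitSeq (u i)) (δ d D : ℕ) (ε : ℝ) (hε : 0 < ε) :
    ∃ T₀ : ℕ, ∀ V : Submodule ℚ ℂ, Module.Finite ℚ V → Module.finrank ℚ V ≤ D → ∀ T ≥ T₀,
      ({n : Fin (k + 1) → ℕ | (∀ i, 1 ≤ n i ∧ n i ≤ T) ∧ ∃ l : Fin (k + 1) → ℂ,
        (∀ i, Complex.exp (l i) = u i (n i)) ∧ Related δ d V l}.ncard : ℝ) ≤ ε * (T : ℝ) ^ (k + 1) := by
  obtain ⟨T₀, hT₀⟩ := X120.Soft.final (σ := Unit) (fun i n _ => u i n) (fun i => by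
    obtain ⟨f, P, a, h1, h2, h3, h4, h5, h6, h7, h8, h9⟩ := hu i
    have h10 : (fun n (_ : Unit) => Complex.log (u i n)) = fun n (_ : Unit) => Complex.log (f.eval (a n)) := by
      funext n _
      rw [h9]
    rw [h10]
    exact X120.Orb.rareO f P h1 h2 h3 h4 h5 a h6 h7 h8) δ d D ε hε
  refine ⟨T₀, fun V hV hVD T hT => ?_⟩
  obtain ⟨S, hS, hm⟩ := hT₀ V hV hVD T hT
  refine le_trans ?_ hS
  rw [← Set.ncard_coe_finset]
  refine Nat.cast_le.2 (Set.ncard_le_ncard ?_ S.finite_toSet)
  rintro n ⟨hn, l, hl, L, h1, h2, P, h3, h4, h5, h6⟩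
  refine hm n hn (fun p => l p.1) (fun p => hl p.1) ⟨L, h1, h2, MvPolynomial.rename (fun i => (i, ())) P, ?_, ?_, ?_, ?_⟩
  · intro h0
    exact h3 (MvPolynomial.rename_injective _ (fun a b hab => (Prod.mk.inj hab).1) (h0.trans (map_zero _).symm))
  · exact (MvPolynomial.totalDegree_rename_le _ _).trans h4
  · intro s
    by_cases hs : ∃ s', Finsupp.mapDomain (fun i => (i, ())) s' = s
    · obtain ⟨s', rfl⟩ := hs
      rw [MvPolynomial.coeff_rename_mapDomain _ (fun a b hab => (Prod.mk.inj hab).1)]
      exact h5 s'
    · rw [MvPolynomial.coeff_rename_eq_zero _ _ _ fun s' hs' => absurd ⟨s', hs'⟩ hs]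
      exact Submodule.zero_mem _
  · rw [MvPolynomial.aeval_rename]
    exact h6

end Pool.Agent.Results.MP_60829e_nt.PolynomialOrbits
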